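import Mathlib

set_option autoImplicit false

/-!
# The product of two countably compact paratopological groups need not be 2-pseudocompact

We construct (in ZFC) two countably compact, abelian, `T₀` paratopological groups `G`, `H` such
that `G × H` is not 2-pseudocompact.

Let `K = 2^ℕ` be the Cantor group, `NSeq` the set of all sequences in `K` with strictly increasing
leading positions, and `A` the group of countably supported functions `NSeq → (ℕ → ℤ)`.  Call
`f ∈ A` positive if each `f s` is either `0` or eventually positive.  For a family `p` of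
ultrafilters `p s` on `ℕ` (`s ∈ NSeq`), the group `K × A` gets the topology in which the basic
neighbourhoods of `0` are the submonoids
`U E = {(k, f) : f positive, k ∈ span {s n : f s ≠ 0, n ∈ E s}}` with `E s ∈ p s` for all `s`.
This paratopological group is countably compact if all `p s` are nonprincipal.

Choosing all the ultrafilters so that any countably many of them can be separated even after
applying injective maps, the groups for two such (disjoint) families have a product that is not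
2-pseudocompact: the open sets `Oₙ = ⋃_{m ≥ n} ((e_m, 0) + U_m) × ((e_m, 0) + U_m)`, with
`U_m = {(k, f) : f positive, k i = 0 for i ≤ m}`, satisfy `⋂ closure (-Oₙ) = ∅`.
-/

namespace Pool.Agent.Results.MP_e72135_al.NotTwoPseudocompact

open Filter Set

/-! ### The definitions of the problem -/

/-- A space is countably compact if every infinite set has an accumulation point: a point each
neighbourhood of which meets the set in infinitely many points. -/
def IsCtblyCompactSpace (X : Type) [TopologicalSpace X] : Prop :=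
  ∀ B : Set X, B.Infinite → ∃ x : X, ∀ W ∈ nhds x, (W ∩ B).Infinite

/-- A (multiplicative) group with a topology is 2-pseudocompact if for every non-increasing
sequence `O₀ ⊇ O₁ ⊇ ⋯` of nonempty open sets the sets `closure (Oₙ⁻¹)` have a common point. -/
def TwoPseudocompact (G : Type) [Group G] [TopologicalSpace G] : Prop :=
  ∀ O : ℕ → Set G, (∀ n, O (n + 1) ⊆ O n) → (∀ n, IsOpen (O n)) → (∀ n, (O n).Nonempty) →
    (⋂ n, closure (O n)⁻¹).Nonempty

/-! ### A family of ultrafilters -/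

/-- Code of the restriction of `x` to `[0, l)`. -/
noncomputable def code (x : ℕ → Bool) (l : ℕ) : ℕ := Encodable.encode ((List.range l).map x)

/-- The branch of `x`: the set of codes of its finite restrictions. -/
noncomputable def br (x : ℕ → Bool) : Set ℕ := Set.range (code x)

lemma code_inj (x : ℕ → Bool) : Function.Injective (code x) := by
  intro l l' h
  have h1 := Encodable.encode_injective h
  have h2 := congrArg List.length h1
  simpa using h2

lemma br_infinite (x : ℕ → Bool) : (br x).Infinite :=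
  Set.infinite_range_of_injective (code_inj x)

lemma br_inter_finite {x y : ℕ → Bool} (h : x ≠ y) : (br x ∩ br y).Finite := by
  obtain ⟨k, hk⟩ : ∃ k, x k ≠ y k := by
    by_contra hc
    push Not at hc
    exact h (funext hc)
  refine ((Set.finite_Iic k).image (code x)).subset ?_
  rintro n ⟨⟨l, rfl⟩, ⟨l', hl'⟩⟩
  have h1 : (List.range l').map y = (List.range l).map x := Encodable.encode_injective hl'
  have h2 : l' = l := by simpa using congrArg List.length h1
  subst h2
  refine ⟨l', ?_, rfl⟩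
  simp only [Set.mem_Iic]
  by_contra hlt
  push Not at hlt
  have h3 : ∀ i ∈ List.range l', y i = x i := by
    intro i hi
    exact (List.map_inj_left.mp h1) i hi
  exact hk (h3 k (List.mem_range.mpr hlt)).symm

/-- The `n`-th block. -/
def blk (n : ℕ) : Finset ℕ := Finset.Ico n.factorial (n + 1).factorial

lemma blk_card (n : ℕ) : (blk n).card = n * n.factorial := by
  rw [blk, Nat.card_Ico, Nat.factorial_succ, Nat.succ_mul]
  simp

open Classical in
/-- The filter attached to `x`. -/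
noncomputable def Fl (x : ℕ → Bool) : Filter ℕ where
  sets := {E | ∃ C, ∀ n ∈ br x, ((blk n).filter (· ∉ E)).card ≤ C * n.factorial}
  univ_sets := ⟨0, fun n _ => by simp⟩
  sets_of_superset := by
    rintro E E' ⟨C, hC⟩ hsub
    refine ⟨C, fun n hn => le_trans (Finset.card_le_card ?_) (hC n hn)⟩
    intro t ht
    simp only [Finset.mem_filter] at ht ⊢
    exact ⟨ht.1, fun h => ht.2 (hsub h)⟩
  inter_sets := by
    rintro E E' ⟨C, hC⟩ ⟨C', hC'⟩
    refine ⟨C + C', fun n hn => ?_⟩
    refine (Finset.card_le_card ?_).trans ((Finset.card_union_le ((blk n).filter (· ∉ E))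
      ((blk n).filter (· ∉ E'))).trans ((add_le_add (hC n hn) (hC' n hn)).trans
      (by rw [add_mul])))
    intro t ht
    simp only [Finset.mem_filter, Finset.mem_union, Set.mem_inter_iff] at ht ⊢
    tauto

open Classical in
lemma mem_Fl {x : ℕ → Bool} {E : Set ℕ} :
    E ∈ Fl x ↔ ∃ C, ∀ n ∈ br x, ((blk n).filter (· ∉ E)).card ≤ C * n.factorial := Iff.rfl

instance (x : ℕ → Bool) : (Fl x).NeBot := by
  constructor
  intro h
  have h0 : (∅ : Set ℕ) ∈ Fl x := by rw [h]; trivial
  rw [mem_Fl] at h0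
  obtain ⟨C, hC⟩ := h0
  obtain ⟨n, hn, hlt⟩ := (br_infinite x).exists_gt C
  have := hC n hn
  simp only [Set.mem_empty_iff_false, not_false_eq_true, Finset.filter_true, blk_card] at this
  have h2 := Nat.le_of_mul_le_mul_right this (Nat.factorial_pos n)
  omega

lemma Fl_le_cofinite (x : ℕ → Bool) : Fl x ≤ Filter.cofinite := by
  intro E hE
  rw [Filter.mem_cofinite] at hE
  rw [mem_Fl]
  refine ⟨hE.toFinset.card, fun n _ => ?_⟩
  calc _ ≤ hE.toFinset.card := by
        apply Finset.card_le_card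
        intro t ht
        simp only [Finset.mem_filter] at ht
        simpa using ht.2
    _ ≤ _ := Nat.le_mul_of_pos_right _ (Nat.factorial_pos n)

/-- The ultrafilter attached to `x`. -/
noncomputable def ult (x : ℕ → Bool) : Ultrafilter ℕ := Ultrafilter.of (Fl x)

lemma Fl_mem_ult {x : ℕ → Bool} {E : Set ℕ} (h : E ∈ Fl x) : E ∈ ult x :=
  Ultrafilter.of_le (Fl x) h

lemma infinite_of_mem_ult {x : ℕ → Bool} {E : Set ℕ} (h : E ∈ ult x) : E.Infinite := by
  intro hfin
  have h1 : Eᶜ ∈ ult x := Fl_mem_ult (Fl_le_cofinite x (by rwa [Filter.mem_cofinite, compl_compl]))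
  exact (Ultrafilter.compl_mem_iff_notMem.mp h1) h

/-- Separation of countably many of the ultrafilters, even after injective maps. -/
lemma separate {J X : Type*} [Countable J] (x : J → ℕ → Bool) (hx : Function.Injective x)
    (f : J → ℕ → X) (hf : ∀ j, Function.Injective (f j)) :
    ∃ E : J → Set ℕ, (∀ j, E j ∈ ult (x j)) ∧
      ∀ j j' t t', t ∈ E j → t' ∈ E j' → f j t = f j' t' → j = j' := by
  classical
  obtain ⟨e, he⟩ := exists_injective_nat J
  let a : J → Set ℕ := fun j => {n | n ∈ br (x j) ∧ ∀ i, e i < e j → n ∉ br (x i)}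
  have ha : ∀ j j' n, n ∈ a j → n ∈ a j' → j = j' := by
    intro j j' n h h'
    rcases lt_trichotomy (e j) (e j') with hlt | heq | hlt
    · exact absurd h.1 (h'.2 j hlt)
    · exact he heq
    · exact absurd h'.1 (h.2 j' hlt)
  have hfin : ∀ j, (br (x j) \ a j).Finite := by
    intro j
    have hI : {i : J | e i < e j}.Finite :=
      (Set.finite_Iio (e j)).preimage (he.injOn)
    refine (hI.biUnion (t := fun i => br (x i) ∩ br (x j)) fun i hi => ?_).subset ?_
    · apply br_inter_finite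
      intro h
      have := hx h
      subst this
      simp at hi
    · rintro n ⟨hn, hna⟩
      simp only [a, Set.mem_ofPred_eq, not_and, not_forall, not_not] at hna
      obtain ⟨i, hi, hni⟩ := hna hn
      simp only [Set.mem_iUnion]
      exact ⟨i, hi, hni, hn⟩
  let E : J → Set ℕ := fun j => {t | ∃ n ∈ a j, t ∈ blk n ∧
    ∀ n' j' t', n' < n → n' ∈ a j' → t' ∈ blk n' → f j' t' ≠ f j t}
  refine ⟨E, fun j => Fl_mem_ult ?_, ?_⟩
  · rw [mem_Fl]
    obtain ⟨M, hM⟩ := (hfin j).bddAbove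
    refine ⟨max 1 M, fun n hn => ?_⟩
    by_cases hna : n ∈ a j
    · have : ((blk n).filter (· ∉ E j)).card ≤ (Finset.range n.factorial).card := by
        apply Finset.card_le_card_of_forall_subsingleton
          (fun t t' => ∃ n' j', n' < n ∧ n' ∈ a j' ∧ t' ∈ blk n' ∧ f j' t' = f j t)
        · intro t ht
          simp only [Finset.mem_filter, E, Set.mem_ofPred_eq, not_exists, not_and] at ht
          have h2 := ht.2 n hna ht.1
          push Not at h2
          obtain ⟨n', j', t', h3, h4, h5, h6⟩ := h2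
          refine ⟨t', ?_, n', j', h3, h4, h5, h6⟩
          simp only [blk, Finset.mem_Ico, Finset.mem_range] at h5 ⊢
          exact lt_of_lt_of_le h5.2 (Nat.factorial_le h3)
        · rintro t' - t₁ ⟨-, n₁, j₁, h1, h2, h3, h4⟩ t₂ ⟨-, n₂, j₂, g1, g2, g3, g4⟩
          have hnn : n₁ = n₂ := by
            simp only [blk, Finset.mem_Ico] at h3 g3
            rcases lt_trichotomy n₁ n₂ with h | h | h
            · have := Nat.factorial_le (show n₁ + 1 ≤ n₂ from h)
              omega
            · exact h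
            · have := Nat.factorial_le (show n₂ + 1 ≤ n₁ from h)
              omega
          subst hnn
          have hjj := ha _ _ _ h2 g2
          subst hjj
          exact hf j (h4.symm.trans g4)
      rw [Finset.card_range] at this
      exact this.trans (Nat.le_mul_of_pos_left _ (by positivity))
    · calc _ ≤ (blk n).card := Finset.card_filter_le _ _
        _ = n * n.factorial := blk_card n
        _ ≤ _ := Nat.mul_le_mul_right _ ((hM ⟨hn, hna⟩).trans (le_max_right _ _))
  · rintro j j' t t' ⟨n, hn, ht, hsep⟩ ⟨n', hn', ht', hsep'⟩ heq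
    rcases lt_trichotomy n n' with h | h | h
    · exact absurd heq (hsep' n j t h hn ht)
    · subst h
      exact ha _ _ _ hn hn'
    · exact absurd heq.symm (hsep n' j' t' h hn' ht')

/-! ### Leading positions in the Cantor group -/

/-- The Cantor group. -/
abbrev K : Type := ℕ → ZMod 2

lemma lead_span {ι : Type*} (v : ι → K) (ld : ι → ℕ) (hinj : Function.Injective ld)
    (h0 : ∀ i k, k < ld i → v i k = 0) (h1 : ∀ i, v i (ld i) ≠ 0) (w : K)
    (hw : w ∈ Submodule.span (ZMod 2) (Set.range v)) (m : ℕ) (hm0 : ∀ k < m, w k = 0)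
    (hm1 : w m ≠ 0) : ∃ i, ld i = m := by
  classical
  rw [Finsupp.mem_span_range_iff_exists_finsupp] at hw
  obtain ⟨c, hc⟩ := hw
  have hval : ∀ k, w k = ∑ i ∈ c.support, c i * v i k := by
    intro k
    rw [← hc, Finsupp.sum, Finset.sum_apply]
    simp
  have hne : c.support.Nonempty := by
    rw [Finset.nonempty_iff_ne_empty]
    intro h
    apply hm1
    rw [hval, h, Finset.sum_empty]
  obtain ⟨i₀, hi₀, hmin⟩ := c.support.exists_min_image ld hne
  have hlow : ∀ k < ld i₀, w k = 0 := by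
    intro k hk
    rw [hval]
    refine Finset.sum_eq_zero fun i hi => ?_
    rw [h0 i k (lt_of_lt_of_le hk (hmin i hi)), mul_zero]
  have hat : w (ld i₀) ≠ 0 := by
    rw [hval, Finset.sum_eq_single i₀]
    · exact mul_ne_zero (Finsupp.mem_support_iff.mp hi₀) (h1 i₀)
    · intro i hi hne
      rw [h0 i (ld i₀) (lt_of_le_of_ne (hmin i hi) (fun h => hne (hinj h.symm))), mul_zero]
    · intro h
      exact absurd hi₀ h
  refine ⟨i₀, ?_⟩
  rcases lt_trichotomy (ld i₀) m with h | h | h
  · exact absurd (hm0 _ h) hat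
  · exact h
  · exact absurd (hlow _ h) hm1

/-- Sequences in `K` whose leading positions are strictly increasing. -/
abbrev NSeq : Type :=
  {s : ℕ → K // ∃ ld : ℕ → ℕ, StrictMono ld ∧ (∀ n k, k < ld n → s n k = 0) ∧
    ∀ n, s n (ld n) ≠ 0}

/-- The leading positions of an element of `NSeq`. -/
noncomputable def ld (s : NSeq) : ℕ → ℕ := s.2.choose

lemma ld_mono (s : NSeq) : StrictMono (ld s) := s.2.choose_spec.1
lemma ld_zero (s : NSeq) : ∀ n k, k < ld s n → s.1 n k = 0 := s.2.choose_spec.2.1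
lemma ld_ne (s : NSeq) : ∀ n, s.1 n (ld s n) ≠ 0 := s.2.choose_spec.2.2

/-- An injective coding of `Bool × NSeq`. -/
noncomputable def cod (j : Bool × NSeq) : ℕ → Bool
  | 0 => j.1
  | n + 1 => decide (j.2.1 (Nat.unpair n).1 (Nat.unpair n).2 = 1)

lemma zmod2_ext {a b : ZMod 2} (h : a = 1 ↔ b = 1) : a = b := by
  revert a b
  decide

lemma cod_injective : Function.Injective cod := by
  rintro ⟨b, s⟩ ⟨b', s'⟩ h
  have h0 : b = b' := by simpa [cod] using congrFun h 0
  have h1 : s = s' := by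
    apply Subtype.ext
    funext n k
    have := congrFun h (Nat.pair n k + 1)
    simp only [cod, Nat.unpair_pair, decide_eq_decide] at this
    exact zmod2_ext this
  rw [h0, h1]

/-! ### The group `A` -/

/-- The group of functions `NSeq → (ℕ → ℤ)` with countable support. -/
def A : AddSubgroup (NSeq → ℕ → ℤ) where
  carrier := {f | {s | f s ≠ 0}.Countable}
  zero_mem' := by simp
  add_mem' := by
    intro f g hf hg
    refine (hf.union hg).mono ?_
    intro s hs
    simp only [Set.mem_ofPred_eq, Pi.add_apply, Set.mem_union] at hs ⊢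
    by_contra hc
    push Not at hc
    rw [hc.1, hc.2] at hs
    simp at hs
  neg_mem' := by
    intro f hf
    refine hf.mono ?_
    intro s hs
    simpa using hs

/-- The positive cone. -/
def Pos (f : NSeq → ℕ → ℤ) : Prop := ∀ s, f s = 0 ∨ ∀ᶠ n in atTop, 0 < f s n

lemma Pos.zero : Pos 0 := fun _ => Or.inl rfl

lemma Pos.add {f g : NSeq → ℕ → ℤ} (hf : Pos f) (hg : Pos g) : Pos (f + g) := by
  intro s
  rcases hf s with h | h <;> rcases hg s with h' | h'
  · left; simp [h, h']
  · right; simpa [h] using h'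
  · right; simpa [h'] using h
  · right
    filter_upwards [h, h'] with n h1 h2
    simp only [Pi.add_apply]
    omega

lemma Pos.supp_add {f g : NSeq → ℕ → ℤ} (hf : Pos f) (hg : Pos g) {s : NSeq} (h : f s ≠ 0) :
    (f + g) s ≠ 0 := by
  have h1 : ∀ᶠ n in atTop, 0 < f s n := (hf s).resolve_left h
  rcases hg s with h' | h'
  · simpa [h'] using h
  · intro hc
    obtain ⟨n, h2, h3⟩ := (h1.and h').exists
    have := congrFun hc n
    simp only [Pi.add_apply, Pi.zero_apply] at this
    omega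

lemma exists_upper (h : ℕ → A) (s₀ : NSeq) :
    ∃ g : A, ∀ j, Pos ((g + h j : A) : NSeq → ℕ → ℤ) ∧ ((g + h j : A) : NSeq → ℕ → ℤ) s₀ ≠ 0 := by
  classical
  let g : NSeq → ℕ → ℤ := fun s n =>
    if s = s₀ ∨ ∃ j, (h j).1 s ≠ 0 then 1 + ∑ j ∈ Finset.range (n + 1), |(h j).1 s n| else 0
  have hgA : g ∈ A := by
    have : ({s₀} ∪ ⋃ j, {s | (h j).1 s ≠ 0} : Set NSeq).Countable :=
      (Set.countable_singleton _).union (Set.countable_iUnion fun j => (h j).2)
    refine this.mono ?_
    intro s hs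
    by_contra hc
    simp only [Set.mem_union, Set.mem_singleton_iff, Set.mem_iUnion, Set.mem_ofPred_eq] at hc
    apply hs
    funext n
    simp only [g, if_neg hc, Pi.zero_apply]
  have hev : ∀ j s, (s = s₀ ∨ ∃ j, (h j).1 s ≠ 0) → ∀ᶠ n in atTop, 0 < (g + (h j).1) s n := by
    intro j s hs
    filter_upwards [Filter.eventually_ge_atTop j] with n hn
    simp only [Pi.add_apply, g, if_pos hs]
    have h1 : |(h j).1 s n| ≤ ∑ j ∈ Finset.range (n + 1), |(h j).1 s n| :=
      Finset.single_le_sum (f := fun j => |(h j).1 s n|) (fun _ _ => abs_nonneg _)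
        (Finset.mem_range.mpr (Nat.lt_succ_of_le hn))
    have h2 := neg_abs_le ((h j).1 s n)
    omega
  refine ⟨⟨g, hgA⟩, fun j => ⟨?_, ?_⟩⟩
  · intro s
    by_cases hs : s = s₀ ∨ ∃ j, (h j).1 s ≠ 0
    · right
      exact hev j s hs
    · left
      funext n
      push Not at hs
      simp [g, hs.1, hs.2]
  · intro hc
    obtain ⟨n, hn⟩ := (hev j s₀ (Or.inl rfl)).exists
    have := congrFun hc n
    simp only [AddSubgroup.coe_add] at this
    rw [this] at hn
    simp at hn

/-! ### The paratopological groups -/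

/-- The span of the vectors `s n`, `s ∈ supp f`, `n ∈ E s`. -/
def V (E : NSeq → Set ℕ) (f : NSeq → ℕ → ℤ) : Submodule (ZMod 2) K :=
  Submodule.span (ZMod 2)
    (Set.range (fun q : {q : NSeq × ℕ // f q.1 ≠ 0 ∧ q.2 ∈ E q.1} => q.1.1.1 q.1.2))

lemma V_mono {E E' : NSeq → Set ℕ} {f f' : NSeq → ℕ → ℤ} (hE : ∀ s, E s ⊆ E' s)
    (hf : ∀ s, f s ≠ 0 → f' s ≠ 0) : V E f ≤ V E' f' := by
  apply Submodule.span_mono
  rintro _ ⟨⟨q, h1, h2⟩, rfl⟩
  exact ⟨⟨q, hf _ h1, hE _ h2⟩, rfl⟩

/-- The basic neighbourhoods of zero. -/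
def U (E : NSeq → Set ℕ) : Set (K × A) := {g | Pos g.2.1 ∧ g.1 ∈ V E g.2.1}

lemma zero_mem_U (E : NSeq → Set ℕ) : (0 : K × A) ∈ U E := ⟨Pos.zero, Submodule.zero_mem _⟩

lemma add_mem_U {E : NSeq → Set ℕ} {g h : K × A} (hg : g ∈ U E) (hh : h ∈ U E) : g + h ∈ U E := by
  refine ⟨hg.1.add hh.1, Submodule.add_mem _ ?_ ?_⟩
  · exact V_mono (fun _ => le_rfl) (fun s hs => hg.1.supp_add hh.1 hs) hg.2
  · refine V_mono (fun _ => le_rfl) (fun s hs => ?_) hh.2
    have := hh.1.supp_add hg.1 hs
    rwa [add_comm] at this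

lemma U_mono {E E' : NSeq → Set ℕ} (hE : ∀ s, E s ⊆ E' s) : U E ⊆ U E' :=
  fun _ hg => ⟨hg.1, V_mono hE (fun _ h => h) hg.2⟩

/-- The underlying group; the topology depends on `p`. -/
def GG (_p : NSeq → Ultrafilter ℕ) : Type := K × A

instance (p : NSeq → Ultrafilter ℕ) : AddCommGroup (GG p) := inferInstanceAs (AddCommGroup (K × A))

instance (p : NSeq → Ultrafilter ℕ) : TopologicalSpace (GG p) where
  IsOpen O := ∀ x ∈ O, ∃ E : NSeq → Set ℕ, (∀ s, E s ∈ p s) ∧ ∀ u : GG p, u ∈ U E → x + u ∈ O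
  isOpen_univ := fun _ _ => ⟨fun _ => Set.univ, fun _ => Filter.univ_mem, fun _ _ => trivial⟩
  isOpen_inter := by
    rintro O O' hO hO' x ⟨hx, hx'⟩
    obtain ⟨E, hE, hEO⟩ := hO x hx
    obtain ⟨E', hE', hEO'⟩ := hO' x hx'
    refine ⟨fun s => E s ∩ E' s, fun s => Filter.inter_mem (hE s) (hE' s), fun u hu => ⟨?_, ?_⟩⟩
    · exact hEO u (U_mono (fun s => Set.inter_subset_left) hu)
    · exact hEO' u (U_mono (fun s => Set.inter_subset_right) hu)
  isOpen_sUnion := by
    intro 𝒪 h x hx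
    obtain ⟨O, hO, hxO⟩ := hx
    obtain ⟨E, hE, hEO⟩ := h O hO x hxO
    exact ⟨E, hE, fun u hu => ⟨O, hO, hEO u hu⟩⟩

section
variable {p : NSeq → Ultrafilter ℕ}

lemma isOpen_GG {O : Set (GG p)} : IsOpen O ↔
    ∀ x ∈ O, ∃ E : NSeq → Set ℕ, (∀ s, E s ∈ p s) ∧ ∀ u : GG p, u ∈ U E → x + u ∈ O := Iff.rfl

lemma mem_nhds_GG {x : GG p} {W : Set (GG p)} : W ∈ nhds x ↔
    ∃ E : NSeq → Set ℕ, (∀ s, E s ∈ p s) ∧ ∀ u : GG p, u ∈ U E → x + u ∈ W := by
  constructor
  · intro h
    obtain ⟨O, hOW, hO, hx⟩ := mem_nhds_iff.mp h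
    obtain ⟨E, hE, h1⟩ := isOpen_GG.mp hO x hx
    exact ⟨E, hE, fun u hu => hOW (h1 u hu)⟩
  · rintro ⟨E, hE, h1⟩
    refine mem_nhds_iff.mpr ⟨{y | ∃ u : GG p, u ∈ U E ∧ y = x + u}, ?_, ?_, ?_⟩
    · rintro y ⟨u, hu, rfl⟩
      exact h1 u hu
    · rw [isOpen_GG]
      rintro y ⟨u, hu, rfl⟩
      refine ⟨E, hE, fun u' hu' => ⟨u + u', add_mem_U hu hu', ?_⟩⟩
      rw [add_assoc]
    · exact ⟨0, zero_mem_U E, (add_zero x).symm⟩

instance : ContinuousAdd (GG p) := by
  constructor
  rw [continuous_iff_continuousAt]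
  rintro ⟨x, y⟩
  intro W hW
  obtain ⟨E, hE, h1⟩ := mem_nhds_GG.mp hW
  rw [Filter.mem_map, mem_nhds_prod_iff]
  refine ⟨{z | ∃ u : GG p, u ∈ U E ∧ z = x + u}, mem_nhds_GG.mpr ⟨E, hE, fun u hu => ⟨u, hu, rfl⟩⟩,
    {z | ∃ u : GG p, u ∈ U E ∧ z = y + u}, mem_nhds_GG.mpr ⟨E, hE, fun u hu => ⟨u, hu, rfl⟩⟩, ?_⟩
  rintro ⟨a, b⟩ ⟨⟨u, hu, rfl⟩, ⟨v, hv, rfl⟩⟩
  have h2 := h1 (u + v) (add_mem_U hu hv)
  change x + y + (u + v) ∈ W at h2
  change x + u + (y + v) ∈ W
  rwa [add_add_add_comm]

instance : T0Space (GG p) := by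
  refine ⟨fun x y h => ?_⟩
  have key : ∀ x y : GG p, Inseparable x y → ∀ E : NSeq → Set ℕ, (∀ s, E s ∈ p s) →
      (y - x : GG p) ∈ U E := by
    intro x y h E hE
    have h1 : {z | ∃ u : GG p, u ∈ U E ∧ z = x + u} ∈ nhds x :=
      mem_nhds_GG.mpr ⟨E, hE, fun u hu => ⟨u, hu, rfl⟩⟩
    rw [h] at h1
    obtain ⟨u, hu, huy⟩ := mem_of_mem_nhds h1
    rw [huy, add_sub_cancel_left]
    exact hu
  have h1 := key x y h (fun _ => Set.univ) (fun _ => Filter.univ_mem)
  have h2 := key y x h.symm (fun _ => Set.univ) (fun _ => Filter.univ_mem)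
  have h3 : (y - x : GG p).2.1 = 0 := by
    funext s
    rcases h1.1 s with h4 | h4
    · exact h4
    · rcases h2.1 s with h5 | h5
      · have h6 : (x - y : GG p).2.1 s = - ((y - x : GG p).2.1 s) := by
          rw [← neg_sub y x]; rfl
        rw [h5] at h6
        have := congrArg Neg.neg h6
        simpa using this.symm
      · obtain ⟨n, h7, h8⟩ := (h4.and h5).exists
        have h6 : (x - y : GG p).2.1 s n = - ((y - x : GG p).2.1 s n) := by
          rw [← neg_sub y x]; rfl
        omega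
  have h4 : (y - x : GG p).1 = 0 := by
    have h5 := h1.2
    rw [h3] at h5
    have h6 : V (fun _ => Set.univ) (0 : NSeq → ℕ → ℤ) = ⊥ := by
      rw [V, Submodule.span_eq_bot]
      rintro _ ⟨⟨q, hq, _⟩, rfl⟩
      exact absurd rfl hq
    rw [h6] at h5
    exact (Submodule.mem_bot _).mp h5
  have h5 : (y - x : GG p) = 0 := Prod.ext h4 (Subtype.ext h3)
  exact (sub_eq_zero.mp h5).symm

end

/-! ### Countable compactness -/

/-- Unit vectors. -/
def e (m : ℕ) : K := fun i => if i = m then 1 else 0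

/-- The sequence of unit vectors, as an element of `NSeq`. -/
def eSeq : NSeq :=
  ⟨e, id, strictMono_id, fun n k hk => if_neg (ne_of_lt hk), fun n => by simp [e]⟩

lemma ctblyCompact_GG (p : NSeq → Ultrafilter ℕ) (hp : ∀ s, ∀ E ∈ p s, E.Infinite) :
    IsCtblyCompactSpace (GG p) := by
  intro B hB
  let b : ℕ → GG p := fun n => (hB.natEmbedding B n : GG p)
  have hbB : ∀ n, b n ∈ B := fun n => (hB.natEmbedding B n).2
  have hbinj : Function.Injective b := fun m n h =>
    (hB.natEmbedding B).injective (Subtype.ext h)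
  obtain ⟨k, φ, hφ, hlim⟩ := CompactSpace.tendsto_subseq (fun n => ((b n).1 : K))
  have hlim' : ∀ i, ∀ᶠ n in atTop, (b (φ n)).1 i = k i := by
    intro i
    have h1 := (tendsto_pi_nhds.mp hlim) i
    have h2 : {k i} ∈ nhds (k i) := (isOpen_discrete _).mem_nhds rfl
    exact h1 h2
  have hle : ∀ m, ∀ᶠ n in atTop, ∀ i ≤ m, (b (φ n)).1 i = k i := by
    intro m
    have := (Set.finite_Iic m).eventually_all (l := atTop)
      (p := fun i n => (b (φ n)).1 i = k i)
    exact this.mpr fun i _ => hlim' i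
  -- it suffices to find a subsequence with the right property
  have key : ∀ (ψ : ℕ → ℕ) (hψ : Function.Injective ψ) (s : NSeq)
      (h : ∀ n, (b (ψ n)).1 - k = s.1 n ∨ (b (ψ n)).1 = k),
      ∃ x : GG p, ∀ W ∈ nhds x, (W ∩ B).Infinite := by
    intro ψ hψ s h
    obtain ⟨g, hg⟩ := exists_upper (fun n => (b (ψ n)).2) s
    let x : GG p := ((k, -g) : K × A)
    refine ⟨x, fun W hW => ?_⟩
    obtain ⟨E, hE, hEW⟩ := mem_nhds_GG.mp hW
    have h1 : (b ∘ ψ) '' (E s) ⊆ W ∩ B := by
      rintro _ ⟨n, hn, rfl⟩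
      refine ⟨?_, hbB _⟩
      have h2 := hEW (b (ψ n) - x) ?_
      · rw [add_sub_cancel] at h2
        exact h2
      · have h3 : (b (ψ n) - x : GG p) = (((b (ψ n)).1 - k, g + (b (ψ n)).2) : K × A) := by
          refine Prod.ext rfl ?_
          change (b (ψ n)).2 - (-g) = g + (b (ψ n)).2
          rw [sub_neg_eq_add, add_comm]
        rw [h3]
        refine ⟨(hg n).1, ?_⟩
        rcases h n with h4 | h4
        · change (b (ψ n)).1 - k ∈ V E _
          rw [h4]
          exact Submodule.subset_span ⟨⟨(s, n), (hg n).2, hn⟩, rfl⟩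
        · change (b (ψ n)).1 - k ∈ V E _
          rw [h4, sub_self]
          exact Submodule.zero_mem _
    exact ((hp s _ (hE s)).image ((hbinj.comp hψ).injOn)).mono h1
  by_cases hfreq : ∃ᶠ n in atTop, (b (φ n)).1 = k
  · obtain ⟨ψ, hψ, h⟩ := Filter.extraction_of_frequently_atTop hfreq
    exact key (φ ∘ ψ) (hφ.injective.comp hψ.injective) eSeq fun n => Or.inr (h n)
  · rw [Filter.not_frequently] at hfreq
    classical
    -- leading positions of the differences
    let d : ℕ → K := fun n => (b (φ n)).1 - k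
    have hd : ∀ᶠ n in atTop, ∃ i, d n i ≠ 0 := by
      filter_upwards [hfreq] with n hn
      by_contra hc
      push Not at hc
      apply hn
      funext i
      exact sub_eq_zero.mp (hc i)
    let l : ℕ → ℕ := fun n => if h : ∃ i, d n i ≠ 0 then Nat.find h else n
    have hl : Tendsto l atTop atTop := by
      rw [Filter.tendsto_atTop]
      intro m
      filter_upwards [hle m, hd] with n hn hn'
      simp only [l, dif_pos hn']
      rw [Nat.le_find_iff]
      intro i hi
      simp only [not_not]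
      exact sub_eq_zero.mpr (hn i hi.le)
    obtain ⟨N, hN⟩ := Filter.eventually_atTop.mp hd
    have hl' : Tendsto (fun n => l (n + N)) atTop atTop :=
      hl.comp (Filter.tendsto_add_atTop_nat N)
    obtain ⟨ψ, hψ, hψl⟩ := Filter.strictMono_subseq_of_tendsto_atTop hl'
    let s : NSeq := ⟨fun n => d (ψ n + N), fun n => l (ψ n + N), hψl, ?_, ?_⟩
    · refine key (fun n => φ (ψ n + N)) ?_ s fun n => Or.inl rfl
      intro m n h
      have := hφ.injective h
      exact hψ.injective (by omega)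
    · intro n i hi
      have h1 := hN (ψ n + N) (Nat.le_add_left _ _)
      simp only [l, dif_pos h1] at hi
      have := Nat.find_min h1 hi
      simpa using this
    · intro n
      have h1 := hN (ψ n + N) (Nat.le_add_left _ _)
      simp only [l, dif_pos h1]
      exact Nat.find_spec h1

/-! ### The product -/

/-- The two families of ultrafilters. -/
noncomputable def pp (c : Bool) (s : NSeq) : Ultrafilter ℕ := ult (cod (c, s))

lemma pp_infinite (c : Bool) (s : NSeq) (E : Set ℕ) (h : E ∈ pp c s) : E.Infinite :=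
  infinite_of_mem_ult h

lemma sep (f f' : A) : ∃ E E' : NSeq → Set ℕ, (∀ s, E s ∈ pp false s) ∧ (∀ s, E' s ∈ pp true s) ∧
    ∀ m (w w' : K), w ∈ V E f.1 → w' ∈ V E' f'.1 → (∀ k < m, w k = 0) → w m ≠ 0 →
      (∀ k < m, w' k = 0) → w' m ≠ 0 → False := by
  classical
  let J : Type := {j : Bool × NSeq // (j.1 = false ∧ f.1 j.2 ≠ 0) ∨ (j.1 = true ∧ f'.1 j.2 ≠ 0)}
  have hJ : Countable J := by
    have h1 : ({j : Bool × NSeq | (j.1 = false ∧ f.1 j.2 ≠ 0) ∨
        (j.1 = true ∧ f'.1 j.2 ≠ 0)}).Countable := by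
      refine ((f.2.image (fun s => (false, s))).union (f'.2.image (fun s => (true, s)))).mono ?_
      rintro ⟨c, s⟩ (⟨h, h'⟩ | ⟨h, h'⟩)
      · left
        exact ⟨s, h', by simp only at h; rw [h]⟩
      · right
        exact ⟨s, h', by simp only at h; rw [h]⟩
    exact h1.to_subtype
  obtain ⟨EJ, hEJ, hsep⟩ := separate (J := J) (X := ℕ) (fun j => cod j.1)
    (cod_injective.comp Subtype.val_injective) (fun j => ld j.1.2)
    (fun j => (ld_mono j.1.2).injective)
  let E : NSeq → Set ℕ := fun s => if h : f.1 s ≠ 0 then EJ ⟨(false, s), Or.inl ⟨rfl, h⟩⟩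
    else Set.univ
  let E' : NSeq → Set ℕ := fun s => if h : f'.1 s ≠ 0 then EJ ⟨(true, s), Or.inr ⟨rfl, h⟩⟩
    else Set.univ
  refine ⟨E, E', fun s => ?_, fun s => ?_, ?_⟩
  · by_cases h : f.1 s ≠ 0
    · simp only [E, dif_pos h]
      exact hEJ ⟨(false, s), Or.inl ⟨rfl, h⟩⟩
    · simp only [E, dif_neg h]
      exact Filter.univ_mem
  · by_cases h : f'.1 s ≠ 0
    · simp only [E', dif_pos h]
      exact hEJ ⟨(true, s), Or.inr ⟨rfl, h⟩⟩
    · simp only [E', dif_neg h]
      exact Filter.univ_mem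
  · intro m w w' hw hw' h0 h1 h0' h1'
    obtain ⟨q, hq⟩ := lead_span _
      (fun q : {q : NSeq × ℕ // f.1 q.1 ≠ 0 ∧ q.2 ∈ E q.1} => ld q.1.1 q.1.2) (by
        rintro ⟨⟨s, n⟩, hs, hn⟩ ⟨⟨s', n'⟩, hs', hn'⟩ h
        simp only at hs hn hs' hn' h
        simp only [E, dif_pos hs] at hn
        simp only [E, dif_pos hs'] at hn'
        have h2 := hsep ⟨(false, s), Or.inl ⟨rfl, hs⟩⟩ ⟨(false, s'), Or.inl ⟨rfl, hs'⟩⟩ n n' hn hn' h
        have h3 : s = s' := by
          have := congrArg (fun j : J => j.1.2) h2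
          exact this
        subst h3
        have h4 := (ld_mono s).injective h
        subst h4
        rfl)
      (fun q k hk => ld_zero q.1.1 q.1.2 k hk) (fun q => ld_ne q.1.1 q.1.2) w hw m h0 h1
    obtain ⟨q', hq'⟩ := lead_span _
      (fun q : {q : NSeq × ℕ // f'.1 q.1 ≠ 0 ∧ q.2 ∈ E' q.1} => ld q.1.1 q.1.2) (by
        rintro ⟨⟨s, n⟩, hs, hn⟩ ⟨⟨s', n'⟩, hs', hn'⟩ h
        simp only at hs hn hs' hn' h
        simp only [E', dif_pos hs] at hn
        simp only [E', dif_pos hs'] at hn'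
        have h2 := hsep ⟨(true, s), Or.inr ⟨rfl, hs⟩⟩ ⟨(true, s'), Or.inr ⟨rfl, hs'⟩⟩ n n' hn hn' h
        have h3 : s = s' := by
          have := congrArg (fun j : J => j.1.2) h2
          exact this
        subst h3
        have h4 := (ld_mono s).injective h
        subst h4
        rfl)
      (fun q k hk => ld_zero q.1.1 q.1.2 k hk) (fun q => ld_ne q.1.1 q.1.2) w' hw' m h0' h1'
    obtain ⟨⟨s, n⟩, hs, hn⟩ := q
    obtain ⟨⟨s', n'⟩, hs', hn'⟩ := q'
    simp only at hs hn hs' hn' hq hq'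
    simp only [E, dif_pos hs] at hn
    simp only [E', dif_pos hs'] at hn'
    have h2 := hsep ⟨(false, s), Or.inl ⟨rfl, hs⟩⟩ ⟨(true, s'), Or.inr ⟨rfl, hs'⟩⟩ n n' hn hn'
      (hq.trans hq'.symm)
    have := congrArg (fun j : J => j.1.1) h2
    simp at this

/-- The open sets `(e_m, 0) + U_(m)`. -/
def Wm (p : NSeq → Ultrafilter ℕ) (m : ℕ) : Set (GG p) :=
  {g | Pos g.2.1 ∧ ∀ i ≤ m, g.1 i = e m i}

/-- An admissible choice making all the vectors small. -/
def Esm (m : ℕ) (s : NSeq) : Set ℕ := {n | ∀ i ≤ m, s.1 n i = 0}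

lemma Esm_mem {p : NSeq → Ultrafilter ℕ} (hp : ∀ s, ∀ E ∈ p s, E.Infinite) (m : ℕ) (s : NSeq) :
    Esm m s ∈ p s := by
  by_contra hc
  rw [← Ultrafilter.compl_mem_iff_notMem] at hc
  refine hp s _ hc ((Set.finite_Iic m).subset ?_)
  intro n hn
  simp only [Set.mem_Iic]
  by_contra hlt
  push Not at hlt
  apply hn
  intro i hi
  exact ld_zero s n i (lt_of_le_of_lt hi (lt_of_lt_of_le hlt ((ld_mono s).id_le n)))

lemma V_Esm {m : ℕ} {f : NSeq → ℕ → ℤ} {w : K} (hw : w ∈ V (Esm m) f) : ∀ i ≤ m, w i = 0 := by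
  intro i hi
  refine Submodule.span_induction (p := fun w _ => w i = 0) ?_ rfl ?_ ?_ hw
  · rintro _ ⟨⟨q, h1, h2⟩, rfl⟩
    exact h2 i hi
  · intro x y _ _ hx hy
    simp [hx, hy]
  · intro a x _ hx
    simp [hx]

lemma isOpen_Wm {p : NSeq → Ultrafilter ℕ} (hp : ∀ s, ∀ E ∈ p s, E.Infinite) (m : ℕ) :
    IsOpen (Wm p m) := by
  rw [isOpen_GG]
  rintro x ⟨hx, hx'⟩
  refine ⟨Esm m, Esm_mem hp m, fun u hu => ⟨hx.add hu.1, fun i hi => ?_⟩⟩
  change x.1 i + u.1 i = _
  rw [hx' i hi, V_Esm hu.2 i hi, add_zero]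

/-- The decreasing sequence of open sets in the product. -/
def On (p q : NSeq → Ultrafilter ℕ) (n : ℕ) : Set (GG p × GG q) :=
  {z | ∃ m ≥ n, z.1 ∈ Wm p m ∧ z.2 ∈ Wm q m}

lemma On_anti (p q : NSeq → Ultrafilter ℕ) (n : ℕ) : On p q (n + 1) ⊆ On p q n := by
  rintro z ⟨m, hm, h⟩
  exact ⟨m, by omega, h⟩

lemma On_open {p q : NSeq → Ultrafilter ℕ} (hp : ∀ s, ∀ E ∈ p s, E.Infinite)
    (hq : ∀ s, ∀ E ∈ q s, E.Infinite) (n : ℕ) : IsOpen (On p q n) := by
  have : On p q n = ⋃ m ∈ {m | m ≥ n}, (Wm p m ×ˢ Wm q m) := by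
    ext z
    simp only [On, Set.mem_ofPred_eq, Set.mem_iUnion, Set.mem_prod, exists_prop]
  rw [this]
  exact isOpen_biUnion fun m _ => (isOpen_Wm hp m).prod (isOpen_Wm hq m)

lemma On_nonempty (p q : NSeq → Ultrafilter ℕ) (n : ℕ) : (On p q n).Nonempty :=
  ⟨(((e n, 0) : K × A), ((e n, 0) : K × A)), n, le_rfl, ⟨Pos.zero, fun _ _ => rfl⟩,
    ⟨Pos.zero, fun _ _ => rfl⟩⟩

lemma step {p : NSeq → Ultrafilter ℕ} {E : NSeq → Set ℕ} {x u : GG p} {m : ℕ} (hu : u ∈ U E)
    (h : -(x + u) ∈ Wm p m) : u.1 ∈ V E (-x).2.1 ∧ ∀ i ≤ m, (-x).1 i = u.1 i + e m i := by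
  have h1 : -x = u + -(x + u) := by abel
  constructor
  · refine V_mono (fun _ => le_rfl) (fun s hs => ?_) hu.2
    rw [h1]
    exact hu.1.supp_add h.1 hs
  · intro i hi
    have h2 := h.2 i hi
    have h3 : (-x).1 i = u.1 i + (-(x + u)).1 i := by
      conv_lhs => rw [h1]
      rfl
    rw [h3, h2]

lemma no_point (z : GG (pp false) × GG (pp true))
    (hz : ∀ n, z ∈ closure {w | -w ∈ On (pp false) (pp true) n}) : False := by
  obtain ⟨x, x'⟩ := z
  have key : ∀ E E' : NSeq → Set ℕ, (∀ s, E s ∈ pp false s) → (∀ s, E' s ∈ pp true s) → ∀ n,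
      ∃ m ≥ n, ∃ w w' : K, w ∈ V E (-x).2.1 ∧ w' ∈ V E' (-x').2.1 ∧
        (∀ i ≤ m, (-x).1 i = w i + e m i) ∧ (∀ i ≤ m, (-x').1 i = w' i + e m i) := by
    intro E E' hE hE' n
    have h1 : {y | ∃ u : GG (pp false), u ∈ U E ∧ y = x + u} ∈ nhds x :=
      mem_nhds_GG.mpr ⟨E, hE, fun u hu => ⟨u, hu, rfl⟩⟩
    have h2 : {y | ∃ u : GG (pp true), u ∈ U E' ∧ y = x' + u} ∈ nhds x' :=
      mem_nhds_GG.mpr ⟨E', hE', fun u hu => ⟨u, hu, rfl⟩⟩
    obtain ⟨⟨a, a'⟩, ⟨⟨u, hu, hau⟩, ⟨u', hu', hau'⟩⟩, ⟨m, hm, h3, h4⟩⟩ :=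
      mem_closure_iff_nhds.mp (hz n) _ (prod_mem_nhds h1 h2)
    simp only at hau hau'
    subst hau hau'
    have h5 := step hu h3
    have h6 := step hu' h4
    exact ⟨m, hm, u.1, u'.1, h5.1, h6.1, h5.2, h6.2⟩
  have hx0 : (-x).1 = 0 := by
    funext i
    obtain ⟨m, hm, w, w', hw, -, h, -⟩ := key (Esm i) (Esm i) (Esm_mem (pp_infinite false) i)
      (Esm_mem (pp_infinite true) i) (i + 1)
    rw [h i (by omega), V_Esm hw i le_rfl]
    simp only [e, Pi.zero_apply, zero_add]
    exact if_neg (by omega)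
  have hx0' : (-x').1 = 0 := by
    funext i
    obtain ⟨m, hm, w, w', -, hw', -, h⟩ := key (Esm i) (Esm i) (Esm_mem (pp_infinite false) i)
      (Esm_mem (pp_infinite true) i) (i + 1)
    rw [h i (by omega), V_Esm hw' i le_rfl]
    simp only [e, Pi.zero_apply, zero_add]
    exact if_neg (by omega)
  obtain ⟨E, E', hE, hE', hsep⟩ := sep (-x).2 (-x').2
  obtain ⟨m, -, w, w', hw, hw', h, h'⟩ := key E E' hE hE' 0
  have aux : ∀ (y w : K), y = 0 → (∀ i ≤ m, y i = w i + e m i) → (∀ k < m, w k = 0) ∧ w m ≠ 0 := by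
    intro y w hy h
    subst hy
    constructor
    · intro k hk
      have := h k hk.le
      simp only [e, if_neg (ne_of_lt hk), add_zero, Pi.zero_apply] at this
      exact this.symm
    · intro hc
      have := h m le_rfl
      simp [e, hc] at this
  obtain ⟨h1, h2⟩ := aux _ w hx0 h
  obtain ⟨h3, h4⟩ := aux _ w' hx0' h'
  exact hsep m w w' hw hw' h1 h2 h3 h4

/-- **Negative answer to Q1.**  There are two countably compact (`T₀`, abelian) paratopological
groups whose product is not 2-pseudocompact. -/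
theorem result : ∃ (G H : Type) (_ : CommGroup G) (_ : TopologicalSpace G) (_ : CommGroup H)
    (_ : TopologicalSpace H), ContinuousMul G ∧ ContinuousMul H ∧ T0Space G ∧ T0Space H ∧
      IsCtblyCompactSpace G ∧ IsCtblyCompactSpace H ∧ ¬ TwoPseudocompact (G × H) := by
  refine ⟨Multiplicative (GG (pp false)), Multiplicative (GG (pp true)), inferInstance,
    inferInstance, inferInstance, inferInstance, inferInstance, inferInstance,
    inferInstanceAs (T0Space (GG (pp false))), inferInstanceAs (T0Space (GG (pp true))),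
    ctblyCompact_GG (pp false) (pp_infinite false), ctblyCompact_GG (pp true) (pp_infinite true),
    fun h => ?_⟩
  obtain ⟨z, hz⟩ := h (On (pp false) (pp true)) (On_anti _ _)
    (On_open (pp_infinite false) (pp_infinite true)) (On_nonempty _ _)
  exact no_point z (fun n => Set.mem_iInter.mp hz n)

end Pool.Agent.Results.MP_e72135_al.NotTwoPseudocompact
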